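import Pool.Agent.Helper44.CM.StmtsB5

/-!
# Project MM, row EVLOC: an even function on a ball is controlled by its Hessian
-/

open MeasureTheory

namespace CM33

open CM

variable {n : ℕ}

theorem sum_single (x : E n) : x = ∑ j, x j • (EuclideanSpace.single j (1 : ℝ) : E n) := by
  ext k
  simp [Pi.single_apply]

theorem fderiv_eq (g : E n → ℝ) (y x : E n) :
    fderiv ℝ g y x = ∑ j, x j * pd j g y := by
  conv_lhs => rw [sum_single x]
  rw [map_sum]
  refine Finset.sum_congr rfl fun j _ => ?_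
  rw [map_smul]
  rfl

theorem abs_coord_le (x : E n) (j : Fin n) : |x j| ≤ ‖x‖ := by
  have := PiLp.norm_apply_le x j
  simpa [Real.norm_eq_abs] using this

/-- Mean value inequality from the origin on a ball. -/
theorem mvt0 (R B : ℝ) (hB : 0 ≤ B) (g : E n → ℝ) (hg : ContDiff ℝ 1 g)
    (h : ∀ y j, ‖y‖ ≤ R → |pd j g y| ≤ B) (x : E n) (hx : ‖x‖ ≤ R) :
    |g x - g 0| ≤ n * R * B := by
  have hR : 0 ≤ R := le_trans (norm_nonneg x) hx
  have hd : ∀ t : ℝ, HasDerivAt (fun t : ℝ => g (t • x)) (fderiv ℝ g (t • x) x) t := by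
    intro t
    have h1 : HasFDerivAt g (fderiv ℝ g (t • x)) (t • x) :=
      ((hg.differentiable (by norm_num)) (t • x)).hasFDerivAt
    have h2 : HasDerivAt (fun t : ℝ => t • x) ((1 : ℝ) • x) t := (hasDerivAt_id t).smul_const x
    rw [one_smul] at h2
    exact h1.comp_hasDerivAt t h2
  have hb : ∀ t ∈ Set.Ico (0 : ℝ) 1, ‖fderiv ℝ g (t • x) x‖ ≤ n * R * B := by
    intro t ht
    rw [Real.norm_eq_abs, fderiv_eq]
    have htx : ‖t • x‖ ≤ R := by
      rw [norm_smul, Real.norm_eq_abs, abs_of_nonneg ht.1]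
      nlinarith [norm_nonneg x, ht.2, ht.1]
    calc |∑ j, x j * pd j g (t • x)| ≤ ∑ j, |x j * pd j g (t • x)| := Finset.abs_sum_le_sum_abs _ _
      _ ≤ ∑ _j : Fin n, R * B := by
          refine Finset.sum_le_sum fun j _ => ?_
          rw [abs_mul]
          exact mul_le_mul ((abs_coord_le x j).trans hx) (h _ j htx) (abs_nonneg _) hR
      _ = n * R * B := by simp [mul_assoc]
  have key := norm_image_sub_le_of_norm_deriv_le_segment_01'
    (f := fun t : ℝ => g (t • x)) (f' := fun t => fderiv ℝ g (t • x) x) (C := n * R * B)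
    (fun t _ => (hd t).hasDerivWithinAt) hb
  simpa [Real.norm_eq_abs] using key

theorem pd_odd (u : E n → ℝ) (hu : IsEv u) (i : Fin n) (x : E n) :
    pd i u (-x) = - pd i u x := by
  have h1 : (fun y => u (-y)) = u := funext hu
  have h2 : fderiv ℝ (fun y => u (-y)) x = - fderiv ℝ u (-x) := by
    have := fderiv_comp_smul (𝕜 := ℝ) (f := u) (-1 : ℝ) (x := x)
    simpa using this
  rw [h1] at h2
  unfold pd
  rw [h2]
  simp

theorem st_EVLOC : ST_EVLOC := by
  intro n R hR
  refine ⟨n * R + n * R * (n * R), ?_⟩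
  intro u a b hu hev h0 hH x hx
  rcases Nat.eq_zero_or_pos n with hn | hn
  · subst hn
    have hx0 : x = 0 := Subsingleton.elim _ _
    subst hx0
    refine ⟨by simpa using h0, fun i => i.elim0⟩
  have hb : 0 ≤ b := by
    have := hH 0 ⟨0, hn⟩ ⟨0, hn⟩ (by simpa using hR)
    exact le_trans (abs_nonneg _) this
  have hnR : 0 ≤ (n : ℝ) * R := by positivity
  have hpd : ∀ i, ContDiff ℝ 1 (pd i u) := by
    intro i
    have : ContDiff ℝ 1 (fun y => fderiv ℝ u y) := hu.fderiv_right (by norm_num)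
    exact this.clm_apply contDiff_const
  have h1 : ∀ y i, ‖y‖ ≤ R → |pd i u y| ≤ n * R * b := by
    intro y i hy
    have h2 := mvt0 R b hb (pd i u) (hpd i) (fun z j hz => hH z j i hz) y hy
    have h3 : pd i u 0 = 0 := by
      have := pd_odd u hev i 0
      simp only [neg_zero] at this
      linarith
    rwa [h3, sub_zero] at h2
  constructor
  · have h4 := mvt0 R (n * R * b) (by positivity) u (hu.of_le (by norm_num)) h1 x hx
    have h5 : |u x| ≤ |u 0| + |u x - u 0| := by
      have := abs_add_le (u 0) (u x - u 0)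
      simpa using this
    have h6 : 0 ≤ n * R * b := by positivity
    nlinarith [h4, h5, h6]
  · intro i
    have h6 : 0 ≤ n * R * (n * R) * b := by positivity
    nlinarith [h1 x i hx]

end CM33
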